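import Mathlib
import Pool.Agent.Q291.Hyperopic

/-!
# The hyperopic cop number of a join can exceed `Υ`

Let `G` be an edge, and let `J` be a complete graph with five vertices together with two more
vertices, which are adjacent to the ends of two disjoint edges of it.  Then `Υ(G ∨ J) ≤ 2`, but two
cops do not win the hyperopic game on the join of `G` and `J`.
-/

set_option autoImplicit false

namespace Pool.Agent.Results.MP_bed60c_co.JoinExceedsUpsilon

open Pool.Agent.Q291.Hyperopic

/-- The edge. -/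
def G : SimpleGraph (Fin 2) := ⊤

/-- The edges of `J`: the vertices `2, ..., 6` are pairwise adjacent, `0` is adjacent to `3` and `4`,
and `1` is adjacent to `5` and `6`. -/
def edges : List (Fin 7 × Fin 7) :=
  [(0, 3), (0, 4), (1, 5), (1, 6), (2, 3), (2, 4), (2, 5), (2, 6), (3, 4), (3, 5), (3, 6),
   (4, 5), (4, 6), (5, 6)]

/-- The adjacency of `J`. -/
def adj (a b : Fin 7) : Bool := edges.contains (a, b) || edges.contains (b, a)

/-- The graph `J`. -/
def J : SimpleGraph (Fin 7) where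
  Adj a b := adj a b = true
  symm := ⟨by decide⟩
  loopless := ⟨by decide⟩

/-- The adjacency of the join. -/
def jadj : Fin 2 ⊕ Fin 7 → Fin 2 ⊕ Fin 7 → Bool
  | Sum.inl a, Sum.inl b => decide (a ≠ b)
  | Sum.inr a, Sum.inr b => adj a b
  | _, _ => true

lemma jadj_iff (v w : Fin 2 ⊕ Fin 7) : (join G J).Adj v w ↔ jadj v w = true := by
  rcases v with v | v <;> rcases w with w | w
  · show G.Adj v w ↔ decide (v ≠ w) = true
    rw [decide_eq_true_eq]
    exact Iff.rfl
  · exact ⟨fun _ => rfl, fun _ => trivial⟩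
  · exact ⟨fun _ => rfl, fun _ => trivial⟩
  · exact Iff.rfl

/-- The number of a vertex. -/
def num : Fin 2 ⊕ Fin 7 → ℕ
  | Sum.inl a => a.val
  | Sum.inr b => 2 + b.val

lemma num_inj : Function.Injective num := by
  have h : ∀ v w : Fin 2 ⊕ Fin 7, num v = num w → v = w := by decide +kernel
  exact fun v w hvw => h v w hvw

/-- All vertices. -/
def vs : List (Fin 2 ⊕ Fin 7) :=
  [Sum.inl 0, Sum.inl 1, Sum.inr 0, Sum.inr 1, Sum.inr 2, Sum.inr 3, Sum.inr 4, Sum.inr 5, Sum.inr 6]

lemma mem_vs (v : Fin 2 ⊕ Fin 7) : v ∈ vs := by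
  rcases v with v | v <;> fin_cases v <;> simp [vs]

lemma num_surj : ∀ j < 9, ∃ v : Fin 2 ⊕ Fin 7, num v = j := by decide

/-- The neighbourhoods. -/
def am (v : Fin 2 ⊕ Fin 7) : ℕ := [510, 509, 99, 387, 483, 471, 439, 379, 251].getD (num v) 0

/-- The closed neighbourhoods. -/
def cl (v : Fin 2 ⊕ Fin 7) : ℕ := [511, 511, 103, 395, 499, 503, 503, 507, 507].getD (num v) 0

lemma am_eq : ∀ v w : Fin 2 ⊕ Fin 7, (am v).testBit (num w) = jadj v w := by decide +kernel

lemma am_lt : ∀ v : Fin 2 ⊕ Fin 7, am v < 512 := by decide +kernel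

lemma cl_eq : ∀ v w : Fin 2 ⊕ Fin 7, (cl v).testBit (num w) = (decide (w = v) || jadj v w) := by
  decide +kernel

/-- The set `F` for the positions `a`, `b` of the cops.  If the cops are at `a`, `b` and the robber
went from a vertex outside of `F` to a common neighbour of `a` and `b`, then they do not win. -/
def F (a b : Fin 2 ⊕ Fin 7) : ℕ :=
  ([1, 3, 13, 13, 17, 33, 65, 129, 257, 3, 2, 14, 14, 18, 34, 66, 130, 258, 13, 14, 12, 511,
    28, 44, 76, 140, 268, 13, 14, 511, 12, 28, 44, 76, 140, 268, 17, 18, 28, 28, 16, 48,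
    80, 144, 272, 33, 34, 44, 44, 48, 32, 96, 160, 288, 65, 66, 76, 76, 80, 96, 64, 192,
    320, 129, 130, 140, 140, 144, 160, 192, 128, 384, 257, 258, 268, 268, 272, 288, 320,
    384, 256] :
    List ℕ).getD (9 * num a + num b) 511

/-- The cops are at the two vertices outside of the complete subgraph, and the robber can be at the
vertex which is not adjacent to them. -/
def sp (a b : Fin 2 ⊕ Fin 7) : Bool :=
  (num a == 2 && num b == 3) || (num a == 3 && num b == 2)

/-- The good positions of the robber after the cops went to `a`, `b`. -/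
def good (a b : Fin 2 ⊕ Fin 7) : ℕ :=
  ([510, 508, 498, 498, 494, 478, 446, 382, 254, 508, 509, 497, 497, 493, 477, 445, 381, 253,
    498, 497, 499, 499, 483, 467, 435, 371, 243, 498, 497, 499, 499, 483, 467, 435, 371,
    243, 494, 493, 483, 483, 495, 463, 431, 367, 239, 478, 477, 467, 467, 463, 479, 415,
    351, 223, 446, 445, 435, 435, 431, 415, 447, 319, 191, 382, 381, 371, 371, 367, 351,
    319, 383, 127, 254, 253, 243, 243, 239, 223, 191, 127, 255] :
    List ℕ).getD (9 * num a + num b) 0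

lemma good_prop : ∀ a b v : Fin 2 ⊕ Fin 7, (good a b).testBit (num v) = true →
    a ≠ v ∧ b ≠ v ∧ ((F a b).testBit (num v) = false ∨
      (sp a b = true ∧ (cl (Sum.inr 2)).testBit (num v) = true)) := by
  decide +kernel

lemma sp_prop : ∀ a b : Fin 2 ⊕ Fin 7, sp a b = true →
    a ≠ Sum.inr 2 ∧ b ≠ Sum.inr 2 ∧ jadj a (Sum.inr 2) = false := by
  decide +kernel

/-- The check for the positions where the robber is not seen. -/
def check : Bool :=
  vs.all fun a => vs.all fun b => vs.all fun r => (F a b).testBit (num r) ||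
    vs.all fun d => !(cl a).testBit (num d) || vs.all fun e => !(cl b).testBit (num e) ||
      ((am a &&& am b) &&& cl r) &&& good d e != 0

lemma check_eq : check = true := by decide +kernel

/-- The check for the special position. -/
def check' : Bool :=
  vs.all fun a => vs.all fun b => !sp a b ||
    vs.all fun d => !(cl a).testBit (num d) || vs.all fun e => !(cl b).testBit (num e) ||
      (good d e).testBit (num (Sum.inr 2 : Fin 2 ⊕ Fin 7))

lemma check'_eq : check' = true := by decide +kernel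

lemma start_prop : ∀ a b : Fin 2 ⊕ Fin 7, sp a b = true ∨ ∃ r, (F a b).testBit (num r) = false := by
  decide +kernel

lemma cl_of {c d : Fin 2 ⊕ Fin 7} (h : d = c ∨ (join G J).Adj c d) :
    (cl c).testBit (num d) = true := by
  rw [cl_eq, Bool.or_eq_true, decide_eq_true_eq, ← jadj_iff]
  exact h

lemma of_cl {c d : Fin 2 ⊕ Fin 7} (h : (cl c).testBit (num d) = true) :
    d = c ∨ (join G J).Adj c d := by
  rw [cl_eq, Bool.or_eq_true, decide_eq_true_eq, ← jadj_iff] at h
  exact h

lemma all_adj_iff (c : Fin 2 → Fin 2 ⊕ Fin 7) (v : Fin 2 ⊕ Fin 7) :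
    (am (c 0) &&& am (c 1)).testBit (num v) = true ↔ ∀ i, (join G J).Adj (c i) v := by
  rw [Nat.testBit_and, Bool.and_eq_true, am_eq, am_eq, ← jadj_iff, ← jadj_iff, Fin.forall_fin_two]

/-- The consequence of the first check. -/
lemma exists_good {c d : Fin 2 → Fin 2 ⊕ Fin 7} {r : Fin 2 ⊕ Fin 7}
    (hr : (F (c 0) (c 1)).testBit (num r) = false)
    (hd : ∀ i, d i = c i ∨ (join G J).Adj (c i) (d i)) :
    ∃ v, (∀ i, (join G J).Adj (c i) v) ∧ (v = r ∨ (join G J).Adj r v) ∧
      (good (d 0) (d 1)).testBit (num v) = true := by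
  have h := check_eq
  simp only [check, List.all_eq_true, Bool.or_eq_true, Bool.not_eq_true', bne_iff_ne] at h
  rcases h (c 0) (mem_vs _) (c 1) (mem_vs _) r (mem_vs _) with h | h
  · rw [hr] at h
    exact Bool.noConfusion h
  rcases h (d 0) (mem_vs _) with h | h
  · rw [cl_of (hd 0)] at h
    exact Bool.noConfusion h
  rcases h (d 1) (mem_vs _) with h | h
  · rw [cl_of (hd 1)] at h
    exact Bool.noConfusion h
  by_contra hcon
  push Not at hcon
  apply h
  apply Nat.eq_of_testBit_eq
  intro j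
  rw [Nat.zero_testBit]
  by_contra hj
  rw [Bool.not_eq_false, Nat.testBit_and, Bool.and_eq_true, Nat.testBit_and, Bool.and_eq_true] at hj
  obtain ⟨⟨hj1, hj2⟩, hj3⟩ := hj
  have hj9 : j < 9 := by
    by_contra hj9
    have h1 := hj1
    rw [Nat.testBit_and, Bool.and_eq_true] at h1
    have : am (c 0) < 2 ^ j := lt_of_lt_of_le (am_lt _) (by
      calc 512 = 2 ^ 9 := by norm_num
        _ ≤ 2 ^ j := Nat.pow_le_pow_right (by norm_num) (by omega))
    rw [Nat.testBit_lt_two_pow this] at h1
    exact Bool.noConfusion h1.1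
  obtain ⟨v, rfl⟩ := num_surj j hj9
  exact hcon v ((all_adj_iff c v).1 hj1) (of_cl hj2) hj3

/-- The consequence of the second check. -/
lemma good_sp {c d : Fin 2 → Fin 2 ⊕ Fin 7} (hs : sp (c 0) (c 1) = true)
    (hd : ∀ i, d i = c i ∨ (join G J).Adj (c i) (d i)) :
    (good (d 0) (d 1)).testBit (num (Sum.inr 2 : Fin 2 ⊕ Fin 7)) = true := by
  have h := check'_eq
  simp only [check', List.all_eq_true, Bool.or_eq_true, Bool.not_eq_true'] at h
  rcases h (c 0) (mem_vs _) (c 1) (mem_vs _) with h | h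
  · rw [hs] at h
    exact Bool.noConfusion h
  rcases h (d 0) (mem_vs _) with h | h
  · rw [cl_of (hd 0)] at h
    exact Bool.noConfusion h
  rcases h (d 1) (mem_vs _) with h | h
  · rw [cl_of (hd 1)] at h
    exact Bool.noConfusion h
  exact h

/-- The positions which are safe for the robber. -/
def Safe (c : Fin 2 → Fin 2 ⊕ Fin 7) (B : Set (Fin 2 ⊕ Fin 7)) : Prop :=
  (∃ r, (F (c 0) (c 1)).testBit (num r) = false ∧
    ∀ v, (∀ i, (join G J).Adj (c i) v) → (v = r ∨ (join G J).Adj r v) → v ∈ B) ∨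
  (sp (c 0) (c 1) = true ∧ Sum.inr 2 ∈ B)

lemma not_wins {c : Fin 2 → Fin 2 ⊕ Fin 7} {B : Set (Fin 2 ⊕ Fin 7)} (hw : Wins (join G J) c B) :
    ¬ Safe c B := by
  induction hw with
  | step c B d hd _ ih =>
    intro hsafe
    obtain ⟨v, hvB, hvg⟩ : ∃ v ∈ B, (good (d 0) (d 1)).testBit (num v) = true := by
      rcases hsafe with ⟨r, hr, hB⟩ | ⟨hs, hB⟩
      · obtain ⟨v, h1, h2, h3⟩ := exists_good hr hd
        exact ⟨v, hB v h1 h2, h3⟩
      · exact ⟨_, hB, good_sp hs hd⟩
    obtain ⟨h0, h1, h2⟩ := good_prop _ _ _ hvg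
    have hdv : ∀ i, d i ≠ v := by
      intro i
      fin_cases i
      · exact h0
      · exact h1
    rcases h2 with h2 | ⟨hs, h2⟩
    · have hsub : ∀ w, (∀ i, (join G J).Adj (d i) w) → (w = v ∨ (join G J).Adj v w) →
          w ∈ next (join G J) d B (obs (join G J) d v) none :=
        fun w hw hvw => mem_next_none hvB hdv hw hvw
      obtain ⟨w, hw1, hw2, -⟩ := exists_good (c := d) (d := d) h2 fun i => Or.inl rfl
      exact ih _ _ ⟨w, hsub w hw1 hw2⟩ (Or.inl ⟨v, h2, hsub⟩)
    · obtain ⟨s0, s1, s2⟩ := sp_prop _ _ hs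
      have hmem : (Sum.inr 2 : Fin 2 ⊕ Fin 7) ∈
          next (join G J) d B (obs (join G J) d v) (some (Sum.inr 2)) := by
        refine mem_next_some hvB hdv ?_ ?_ ?_
        · intro i
          fin_cases i
          · exact s0
          · exact s1
        · intro hall
          have h3 := (jadj_iff _ _).1 (hall 0)
          rw [s2] at h3
          exact Bool.noConfusion h3
        · rcases of_cl h2 with h3 | h3
          · exact Or.inl h3.symm
          · exact Or.inr h3.symm
      exact ih _ _ ⟨_, hmem⟩ (Or.inr ⟨hs, hmem⟩)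

lemma not_copsWin : ¬ CopsWin (join G J) 2 := by
  rintro ⟨c, hc⟩
  rcases start_prop (c 0) (c 1) with hs | ⟨r, hr⟩
  · obtain ⟨s0, s1, s2⟩ := sp_prop _ _ hs
    have hmem : (Sum.inr 2 : Fin 2 ⊕ Fin 7) ∈ start (join G J) c (some (Sum.inr 2)) := by
      refine mem_start_some ?_ ?_
      · intro i
        fin_cases i
        · exact s0
        · exact s1
      · intro hall
        have h3 := (jadj_iff _ _).1 (hall 0)
        rw [s2] at h3
        exact Bool.noConfusion h3
    exact not_wins (hc _ ⟨_, hmem⟩) (Or.inr ⟨hs, hmem⟩)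
  · obtain ⟨v, hv, -, -⟩ := exists_good (c := c) (d := c) hr fun i => Or.inl rfl
    exact not_wins (hc none ⟨v, mem_start_none hv⟩)
      (Or.inl ⟨r, hr, fun w hw _ => mem_start_none hw⟩)

lemma cH_join : 3 ≤ cH (join G J) := lt_cH not_copsWin

lemma upsilon_join : Upsilon (join G J) ≤ 2 := by
  refine Nat.sInf_le ⟨{Sum.inr 0, Sum.inr 1}, by simp, by decide, ?_⟩
  have h : {w | ∀ v ∈ ({Sum.inr 0, Sum.inr 1} : Finset (Fin 2 ⊕ Fin 7)), (join G J).Adj v w} ⊆
      {Sum.inl 0, Sum.inl 1} := by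
    intro w hw
    have h1 := (jadj_iff _ _).1 (hw (Sum.inr 0) (by simp))
    have h2 := (jadj_iff _ _).1 (hw (Sum.inr 1) (by simp))
    have h3 : ∀ w : Fin 2 ⊕ Fin 7, jadj (Sum.inr 0) w = true → jadj (Sum.inr 1) w = true →
        w = Sum.inl 0 ∨ w = Sum.inl 1 := by decide +kernel
    exact h3 w h1 h2
  calc Set.ncard {w | ∀ v ∈ ({Sum.inr 0, Sum.inr 1} : Finset (Fin 2 ⊕ Fin 7)),
        (join G J).Adj v w} ≤ Set.ncard {(Sum.inl 0 : Fin 2 ⊕ Fin 7), Sum.inl 1} :=
        Set.ncard_le_ncard h (Set.toFinite _)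
    _ ≤ 2 := (Set.ncard_insert_le _ _).trans (by rw [Set.ncard_singleton])
    _ = _ := by decide

lemma G_connected : G.Connected := SimpleGraph.connected_top

lemma J_connected : J.Connected := by
  have e : ∀ v : Fin 7, v = 2 ∨ adj 2 v = true ∨ (adj v 3 = true ∧ adj 2 3 = true) ∨
      (adj v 5 = true ∧ adj 2 5 = true) := by decide
  refine SimpleGraph.connected_iff_exists_forall_reachable _ |>.2 ⟨2, fun v => ?_⟩
  rcases e v with rfl | hv | ⟨hv, h2⟩ | ⟨hv, h2⟩
  · exact SimpleGraph.Reachable.refl _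
  · exact SimpleGraph.Adj.reachable (show J.Adj 2 v from hv)
  · exact (SimpleGraph.Adj.reachable (show J.Adj 2 3 from h2)).trans
      (SimpleGraph.Adj.reachable (show J.Adj v 3 from hv)).symm
  · exact (SimpleGraph.Adj.reachable (show J.Adj 2 5 from h2)).trans
      (SimpleGraph.Adj.reachable (show J.Adj v 5 from hv)).symm

/-- There are connected graphs `G` and `J` with `c_H(G ∨ J) > Υ(G ∨ J)`. -/
theorem result : ∃ (G : SimpleGraph (Fin 2)) (J : SimpleGraph (Fin 7)),
    G.Connected ∧ J.Connected ∧ Upsilon (join G J) ≤ 2 ∧ 3 ≤ cH (join G J) :=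
  ⟨G, J, G_connected, J_connected, upsilon_join, cH_join⟩

end Pool.Agent.Results.MP_bed60c_co.JoinExceedsUpsilon
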